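import Pool.Agent.Work.MP_dbfdd9_lc.Defs

/-!
Deterministic and nondeterministic logarithmic space, and branching constraint languages.
-/

namespace Pool.Agent.Work.MP_dbfdd9_lc.Hedge

open Pool.Agent.Lib.Cx

/-- `LOGSPACE`: the answer bit is computed by a deterministic transducer in logarithmic space. -/
def LOGSPACE : Set N68a2faeb.DecisionProblem := {A | LogspaceComputable fun x => [A x]}

/-- A nondeterministic Turing acceptor: finite control `Q` with a set of accepting states, a
two-way read-only input tape, `k` read-write work tapes over the finite alphabet `Γ`, and two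
transition functions `δ false`, `δ true` between which every step chooses.  From the state, the
scanned input symbol (`none` on the end markers) and the scanned work symbols a transition gives
the new state, the move of the input head, and the symbol written and the move on each work
tape. -/
structure NAcceptor where
  Q : Type
  Γ : Type
  finQ : Finite Q
  finΓ : Finite Γ
  k : ℕ
  start : Q
  blank : Γ
  accept : Set Q
  δ : Bool → Q → Option Bool → (Fin k → Γ) → Q × Move × (Fin k → Γ × Move)

/-- Configurations: state, input head, work tapes, work heads. -/
structure NAcceptor.Cfg (M : NAcceptor) where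
  q : M.Q
  pos : ℕ
  tape : Fin M.k → ℕ → M.Γ
  head : Fin M.k → ℕ

/-- One step on input `x` with the choice `b`. -/
def NAcceptor.step (M : NAcceptor) (x : List Bool) (c : M.Cfg) (b : Bool) : M.Cfg :=
  let r := M.δ b c.q (inputSym x c.pos) fun i => c.tape i (c.head i)
  { q := r.1
    pos := min (r.2.1.apply c.pos) (x.length + 1)
    tape := fun i => Function.update (c.tape i) (c.head i) (r.2.2 i).1
    head := fun i => (r.2.2 i).2.apply (c.head i) }

/-- The configuration reached on input `x` by the sequence of choices `bs` (from blank work tapes
with all heads on cell `0`). -/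
def NAcceptor.run (M : NAcceptor) (x : List Bool) (bs : List Bool) : M.Cfg :=
  bs.foldl (M.step x) ⟨M.start, 0, fun _ _ => M.blank, fun _ => 0⟩

/-- `NL`: the input is accepted iff some sequence of choices reaches an accepting state, and on all
sequences of choices the work heads stay within `O(log n)` cells. -/
def NL : Set N68a2faeb.DecisionProblem :=
  {A | ∃ (M : NAcceptor) (C : ℕ), ∀ x : List Bool,
    (A x = true ↔ ∃ bs, (M.run x bs).q ∈ M.accept) ∧
    ∀ bs i, (M.run x bs).head i ≤ C * Nat.log 2 x.length + C}

/-- `L` contains `x {u, v}* y` for two words `u`, `v` that do not commute. -/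
def Branching {k : ℕ} (L : Language (Fin k)) : Prop :=
  ∃ x u v y : List (Fin k), u ++ v ≠ v ++ u ∧
    ∀ ws : List (List (Fin k)), (∀ w ∈ ws, w = u ∨ w = v) → x ++ ws.flatten ++ y ∈ L

end Pool.Agent.Work.MP_dbfdd9_lc.Hedge
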