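import Pool.Agent.Work.MP_dbfdd9_lc.Hedge.Defs
import Pool.Agent.Lib.Cx.Bits
import Pool.Agent.Work.MP_dbfdd9_lc.MemNP
import Pool.Agent.Lib.Cx.LogTM

-- merged part: Pool.Agent.Work.MP_dbfdd9_lc.Hedge.NLHard
section
/-!
The configuration graph of a nondeterministic logarithmic-space acceptor as an `LS` automaton.
-/

namespace Pool.Agent.Work.MP_dbfdd9_lc.Hedge

open Pool.Agent.Lib.Cx Function Finset

/-- The number with the given digits. -/
def pk (b n : ℕ) (d : ℕ → ℕ) : ℕ := ∑ j ∈ range n, d j % b * b ^ j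

theorem pk_lt {b : ℕ} (hb : 0 < b) (n : ℕ) (d : ℕ → ℕ) : pk b n d < b ^ n := by
  induction n with
  | zero => simp [pk]
  | succ n ih =>
    have h1 : d n % b + 1 ≤ b := Nat.mod_lt _ hb
    have h2 := Nat.mul_le_mul_right (b ^ n) h1
    rw [pk, sum_range_succ, pow_succ']
    unfold pk at ih
    nlinarith

theorem dg_pk {b : ℕ} (hb : 0 < b) (n : ℕ) (d : ℕ → ℕ) {j : ℕ} (hj : j < n) :
    pk b n d / b ^ j % b = d j % b := by
  induction n with
  | zero => omega
  | succ n ih =>
    have e : pk b (n + 1) d = pk b n d + d n % b * b ^ n := sum_range_succ _ _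
    rw [e]
    rcases Nat.lt_succ_iff_lt_or_eq.1 hj with h | rfl
    · obtain ⟨r, rfl⟩ := Nat.exists_eq_add_of_lt h
      rw [show d (j + r + 1) % b * b ^ (j + r + 1) = d (j + r + 1) % b * b ^ r * b * b ^ j by ring,
        Nat.add_mul_div_right _ _ (by positivity), Nat.add_mul_mod_self_right, ih h]
    · rw [Nat.add_mul_div_right _ _ (by positivity), Nat.div_eq_of_lt (pk_lt hb _ _), Nat.zero_add,
        Nat.mod_mod]

variable {α β : Type} [Obj α]

theorem ls_pk {b : α → ℕ} (hb : LS b) (n : ℕ) {d : α → ℕ → ℕ} (hd : ∀ j, LS fun a => d a j) :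
    LS fun a => pk (b a) n (d a) := by
  induction n with
  | zero => exact LS.const 0
  | succ n ih =>
    exact (ih.add (((hd n).mod hb).mul (hb.pow_const n))).congr fun a => (sum_range_succ _ _).symm

theorem ls_of_dec [Obj β] [Finite β] [DecidableEq β] (b0 : β) {f : α → β}
    (h : ∀ v, LS fun a => decide (f a = v)) : LS f := by
  have := Fintype.ofFinite β
  have key : ∀ s : Finset β, LS fun a => if f a ∈ s then f a else b0 := by
    intro s
    induction s using Finset.induction_on with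
    | empty => simpa using LS.const b0
    | insert x s _ ih =>
      exact (LS.ite (h x) (LS.const x) ih).congr fun a => by by_cases hx : f a = x <;> simp [hx]
  simpa using key univ

theorem ls_pi [Obj β] [Finite β] {k : ℕ} [Obj (Fin k → β)] (b0 : β) {f : α → Fin k → β}
    (h : ∀ i, LS fun a => f a i) : LS f := by
  classical
  refine ls_of_dec (fun _ => b0) fun v => ?_
  have key : ∀ s : Finset (Fin k), LS fun a => decide (∀ i ∈ s, f a i = v i) := by
    intro s
    induction s using Finset.induction_on with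
    | empty => simpa using LS.const true
    | insert x s _ ih =>
      exact (LS.and (LS.decide_eq (inst := fun _ => inferInstance) (h x) (LS.const (v x)))
        ih).congr fun a => by simp
  exact (key univ).congr fun a => by simp [funext_iff]

theorem exists_num (β : Type) [Finite β] [Obj β] (b0 : β) : ∃ (n : ℕ) (i : β → ℕ) (d : ℕ → β),
    (∀ x, i x < n) ∧ (∀ x, d (i x) = x) ∧ i b0 = 0 ∧ LS d := by
  obtain ⟨n, ⟨e⟩⟩ := Finite.exists_equiv_fin β
  let e' := e.trans (Equiv.swap (e b0) ⟨0, (e b0).pos⟩)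
  refine ⟨n, fun x => e' x, fun j => if h : j < n then e'.symm ⟨j, h⟩ else b0, fun x => (e' x).2,
    fun x => by simp, by simp [e'], LS.of_finset _ (range n) b0 fun a ha => dif_neg (by simpa using ha)⟩

theorem ls_move (m : Move) {f : α → ℕ} (hf : LS f) : LS fun a => m.apply (f a) := by
  cases m <;> simp only [Move.apply] <;> fun_prop

theorem exists_dfa_of_NL {A : List Bool → Bool} (hA : A ∈ NL) :
    ∃ (S : List Bool → ℕ) (f : List Bool → ℕ → Bool → ℕ) (acc : List Bool → ℕ → Bool), LS S ∧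
      (LS fun p : List Bool × ℕ × Bool => f p.1 p.2.1 p.2.2) ∧
      (LS fun p : List Bool × ℕ => acc p.1 p.2) ∧ (∀ x d b, f x d b < S x) ∧
      ∀ x, A x = true ↔ ∃ bs : List Bool, acc x (bs.foldl (f x) 0) = true := by
  classical
  obtain ⟨M, C, hM⟩ := hA
  have := M.finQ
  have := M.finΓ
  let _ := Obj.ofFinite M.Q
  let _ := Obj.ofFinite M.Γ
  let _ := Obj.ofFinite (Fin M.k → M.Γ)
  obtain ⟨a, iq, dq, q1, q2, q3, q4⟩ := exists_num M.Q M.start
  obtain ⟨g, ig, dγ, g1, g2, g3, g4⟩ := exists_num M.Γ M.blank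
  have g0 : 0 < g := g3 ▸ g1 M.blank
  let W : List Bool → ℕ := fun x => C * x.length.size + C + 1
  have hW : LS W := by fun_prop
  let cp : List Bool → ℕ → ℕ := fun x j => g ^ min j (W x)
  have hcp : LS fun p : List Bool × ℕ => cp p.1 p.2 := by
    have key : ∀ i, (Nat.rec 1 (fun _ acc => acc * g) i : ℕ) = g ^ i := fun i => by
      induction i with
      | zero => rfl
      | succ i ih => simp only [ih, pow_succ]
    refine (LS.natRec (n := fun p : List Bool × ℕ => min p.2 (W p.1)) (s := fun _ => 1)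
      (t := fun q => q.1 * g) (by fun_prop) (by fun_prop) (by fun_prop)
      (fun p => (2 * p.1.length + 1) ^ (g * C) * g ^ (C + 1)) (by fun_prop)
      fun p i hi => ?_).congr fun p => key _
    have h1 : 2 ^ p.1.length.size ≤ 2 * p.1.length + 1 := by
      rcases h : p.1.length.size with _ | s
      · simp
      · have := Nat.lt_size.1 (h ▸ Nat.lt_succ_self s : s < p.1.length.size)
        rw [pow_succ]; omega
    calc _ = g ^ i := key i
      _ ≤ g ^ (C * p.1.length.size + (C + 1)) :=
        Nat.pow_le_pow_right g0 (hi.le.trans (min_le_right _ _))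
      _ = g ^ (C * p.1.length.size) * g ^ (C + 1) := pow_add _ _ _
      _ ≤ (2 ^ g) ^ (C * p.1.length.size) * g ^ (C + 1) :=
        Nat.mul_le_mul_right _ (Nat.pow_le_pow_left Nat.lt_two_pow_self.le _)
      _ = (2 ^ p.1.length.size) ^ (g * C) * g ^ (C + 1) := by
        rw [← pow_mul, ← pow_mul]; congr 2; ring
      _ ≤ _ := Nat.mul_le_mul_right _ (Nat.pow_le_pow_left h1 _)
  have hcp' : ∀ {γ : Type} [Obj γ] {x : γ → List Bool} {j : γ → ℕ}, LS x → LS j →
      LS fun p => cp (x p) (j p) := fun {_} _ x j hx hj =>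
    LS.comp (fun p : List Bool × ℕ => cp p.1 p.2) (fun p => (x p, j p)) hcp (hx.pair hj)
  let b : List Bool → ℕ := fun x => a + x.length + 2 + W x + cp x (W x)
  have hb : LS b := LS.add (by fun_prop) (hcp' LS.id' hW)
  have b0 : ∀ x, 0 < b x := fun x => by simp only [b]; omega
  let dg : List Bool → ℕ → ℕ → ℕ := fun x c j => c / b x ^ j % b x
  let de : List Bool → ℕ → M.Cfg := fun x c => ⟨dq (dg x c 0), dg x c 1,
    fun i j => if j < W x then dγ (dg x c (2 + M.k + i) / cp x j % g) else M.blank,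
    fun i => dg x c (2 + i)⟩
  let dig : List Bool → M.Cfg → ℕ → ℕ := fun x c j => if j = 0 then iq c.q else if j = 1 then c.pos
    else if h : j - 2 < M.k then c.head ⟨j - 2, h⟩ else if h : j - 2 - M.k < M.k then
      pk g (W x) fun l => ig (c.tape ⟨j - 2 - M.k, h⟩ l) else 0
  let en : List Bool → M.Cfg → ℕ := fun x c => pk (b x) (2 + M.k + M.k) (dig x c)
  have de_en : ∀ x (c : M.Cfg), c.pos ≤ x.length + 1 → (∀ i, c.head i < W x) →
      (∀ i j, W x ≤ j → c.tape i j = M.blank) → de x (en x c) = c := by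
    rintro x ⟨q, pos, tape, head⟩ h1 h2 h3
    have e : ∀ j < 2 + M.k + M.k, dg x (en x ⟨q, pos, tape, head⟩) j =
        dig x ⟨q, pos, tape, head⟩ j % b x := fun j hj => dg_pk (b0 x) _ _ hj
    simp only [de]
    congr 1
    · rw [e 0 (by omega), show dig x ⟨q, pos, tape, head⟩ 0 = iq q from rfl,
        Nat.mod_eq_of_lt (by have := q1 q; simp only [b]; omega), q2]
    · rw [e 1 (by omega), show dig x ⟨q, pos, tape, head⟩ 1 = pos from rfl,
        Nat.mod_eq_of_lt (by simp only [b] at h1 ⊢; omega)]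
    · funext i j
      have hi := i.2
      split_ifs with hj
      · have e1 : dig x ⟨q, pos, tape, head⟩ (2 + M.k + i) = pk g (W x) fun l => ig (tape i l) := by
          simp only [dig]
          rw [if_neg (by omega), if_neg (by omega), dif_neg (by omega), dif_pos (by omega)]
          have : (⟨2 + M.k + i - 2 - M.k, by omega⟩ : Fin M.k) = i := Fin.ext (by simp only; omega)
          rw [this]
        have e2 := pk_lt g0 (W x) fun l => ig (tape i l)
        rw [e _ (by omega), e1, Nat.mod_eq_of_lt (a := pk _ _ _) (by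
          simp only [b, cp, min_self]; omega)]
        simp only [cp, min_eq_left hj.le]
        rw [dg_pk g0 _ _ hj, Nat.mod_eq_of_lt (g1 _), g2]
      · exact (h3 i j (by omega)).symm
    · funext i
      have hi := i.2
      have e1 : dig x ⟨q, pos, tape, head⟩ (2 + i) = head i := by
        simp only [dig]
        rw [if_neg (by omega), if_neg (by omega), dif_pos (by omega)]
        congr 1
        exact Fin.ext (by simp only; omega)
      rw [e _ (by omega), e1, Nat.mod_eq_of_lt (by have := h2 i; simp only [b] at this ⊢; omega)]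
  have hdg : ∀ j, LS fun p : List Bool × ℕ × Bool => dg p.1 p.2.1 j := fun j => by fun_prop
  have htp : ∀ {γ : Type} [Obj γ] {p : γ → List Bool × ℕ × Bool} {j : γ → ℕ} (i : Fin M.k), LS p →
      LS j → LS fun y => (de (p y).1 (p y).2.1).tape i (j y) := fun {γ} _ p j i hp hj =>
    LS.ite (LS.decide_lt hj (by fun_prop)) (LS.comp _ _ g4 (LS.mod (LS.div
      (LS.comp _ _ (hdg _) hp) (hcp' hp.fst hj)) (LS.const g))) (LS.const _)
  refine ⟨fun x => b x ^ (2 + M.k + M.k), fun x c β => en x (M.step x (de x c) β),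
    fun x c => decide (dq (dg x c 0) ∈ M.accept), by fun_prop, ?_,
    LS.finite_comp (fun q => decide (q ∈ M.accept)) (LS.comp _ _ q4 (by fun_prop)),
    fun x d β => pk_lt (b0 x) _ _, fun x => ?_⟩
  · refine LS.finite_family (β := Bool × M.Q × Option Bool × (Fin M.k → M.Γ))
      (f := fun z (p : List Bool × ℕ × Bool) => en p.1
        ⟨(M.δ z.1 z.2.1 z.2.2.1 z.2.2.2).1,
          min ((M.δ z.1 z.2.1 z.2.2.1 z.2.2.2).2.1.apply (de p.1 p.2.1).pos) (p.1.length + 1),
          fun i => update ((de p.1 p.2.1).tape i) ((de p.1 p.2.1).head i)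
            ((M.δ z.1 z.2.1 z.2.2.1 z.2.2.2).2.2 i).1,
          fun i => ((M.δ z.1 z.2.1 z.2.2.1 z.2.2.2).2.2 i).2.apply ((de p.1 p.2.1).head i)⟩)
      (fun z => ls_pk (by fun_prop) _ fun j => ?_)
      (g := fun p => (p.2.2, (de p.1 p.2.1).q, inputSym p.1 (de p.1 p.2.1).pos,
        fun i => (de p.1 p.2.1).tape i ((de p.1 p.2.1).head i)))
      (LS.pair (by fun_prop) (LS.pair (LS.comp dq _ q4 (hdg 0)) (LS.pair ?_
        (ls_pi M.blank fun i => htp i LS.id' (hdg _)))))
    · generalize M.δ z.1 z.2.1 z.2.2.1 z.2.2.2 = r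
      simp only [dig]
      split_ifs with h1 h2 h3 h4
      · exact LS.const _
      · exact LS.min (ls_move _ (hdg 1)) (by fun_prop)
      · exact ls_move _ (hdg _)
      · refine (LS.sumRange (n := fun p : List Bool × ℕ × Bool => W p.1)
          (g := fun p l => ig (if l = (de p.1 p.2.1).head ⟨j - 2 - M.k, h4⟩ then
            (r.2.2 ⟨j - 2 - M.k, h4⟩).1 else (de p.1 p.2.1).tape ⟨j - 2 - M.k, h4⟩ l) % g *
            cp p.1 l) (by fun_prop) (LS.mul (LS.mod (LS.finite_comp ig (LS.ite
              (LS.decide_eq_nat LS.snd' (LS.comp _ _ (hdg _) LS.fst')) (LS.const _)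
              (htp _ LS.fst' LS.snd'))) (LS.const g)) (hcp' (by fun_prop) LS.snd'))).congr
          fun p => sum_congr rfl fun l hl => ?_
        simp only [cp, min_eq_left (mem_range.1 hl).le, update_apply]
      · exact LS.const _
    · have := hdg 1
      simp only [inputSym, de]
      fun_prop
  · have hd : ∀ bs i, (M.run x bs).head i < W x := fun bs i => by
      have h1 := (hM x).2 bs i
      have h2 : Nat.log 2 x.length ≤ x.length.size := by
        rcases Nat.eq_zero_or_pos x.length with h | h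
        · simp [h]
        · exact (Nat.log_lt_of_lt_pow h.ne' (Nat.lt_size_self _)).le
      have := Nat.mul_le_mul_left C h2
      simp only [W]; omega
    have snoc : ∀ cs β, M.run x (cs ++ [β]) = M.step x (M.run x cs) β := fun cs β => by
      simp [NAcceptor.run]
    have key : ∀ bs : List Bool, (M.run x bs).pos ≤ x.length + 1 ∧
        (∀ i j, W x ≤ j → (M.run x bs).tape i j = M.blank) ∧
        bs.foldl (fun c β => en x (M.step x (de x c) β)) 0 = en x (M.run x bs) := by
      intro bs
      induction bs using List.reverseRecOn with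
      | nil =>
        refine ⟨Nat.zero_le _, fun _ _ _ => rfl, (sum_eq_zero fun j _ => ?_).symm⟩
        have : dig x (M.run x []) j = 0 := by
          simp only [dig, NAcceptor.run, List.foldl_nil, q3, g3, pk]
          split_ifs <;> simp
        simp [this]
      | append_singleton bs β ih =>
        rw [List.foldl_append, ih.2.2, List.foldl_cons, List.foldl_nil,
          de_en x _ ih.1 (hd bs) ih.2.1, snoc]
        refine ⟨min_le_right _ _, fun i j hj => ?_, rfl⟩
        have := hd bs i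
        exact (update_of_ne (by omega) _ _).trans (ih.2.1 i j hj)
    refine (hM x).1.trans (exists_congr fun bs => ?_)
    have := congrArg NAcceptor.Cfg.q (de_en x _ (key bs).1 (hd bs) (key bs).2.1)
    simp only [de] at this
    simp only [(key bs).2.2, this, decide_eq_true_eq]

end Pool.Agent.Work.MP_dbfdd9_lc.Hedge
end

-- merged part: Pool.Agent.Work.MP_dbfdd9_lc.Hedge.Red
section
/-!
Constrained synchronization is `NL`-hard as soon as a useful component branches.
-/

namespace Pool.Agent.Work.MP_dbfdd9_lc.Hedge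

open Pool.Agent.Lib.Cx

theorem exists_reset {A : List Bool → Bool} (hA : A ∈ NL) :
    ∃ (S : List Bool → ℕ) (f : List Bool → ℕ → Bool → ℕ) (acc : List Bool → ℕ → Bool), LS S ∧
      (LS fun p : List Bool × ℕ × Bool => f p.1 p.2.1 p.2.2) ∧
      (LS fun p : List Bool × ℕ => acc p.1 p.2) ∧ (∀ x, 0 < S x) ∧
      (∀ x d b, d < S x → f x d b < S x) ∧
      (∀ x, A x = true → ∀ d, ∃ bs : List Bool, bs ≠ [] ∧ acc x (bs.foldl (f x) d) = true) ∧
      ∀ x (bs : List Bool), acc x (bs.foldl (f x) 0) = true → A x = true := by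
  obtain ⟨S, f, acc, h1, h2, h3, h4, h5⟩ := exists_dfa_of_NL hA
  let F : List Bool → ℕ → Bool → ℕ := fun x d b =>
    if d % 2 = 0 then (if b = true then d + 1 else 0) else 2 * f x (d / 2) b
  refine ⟨fun x => 2 * S x, F, fun x d => acc x (d / 2), by fun_prop, ?_,
    LS.comp (fun p : List Bool × ℕ => acc p.1 p.2) (fun p : List Bool × ℕ => (p.1, p.2 / 2)) h3
      (by fun_prop), fun x => by have := h4 x 0 true; simp only; omega, fun x d b hd => ?_, fun x hx d => ?_,
    fun x bs h => ?_⟩
  · exact LS.ite (by fun_prop) (LS.ite (LS.decide_eq_true (by fun_prop)) (by fun_prop)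
      (by fun_prop)) (LS.mul (LS.const 2) (LS.comp (fun p : List Bool × ℕ × Bool =>
        f p.1 p.2.1 p.2.2) (fun p : List Bool × ℕ × Bool => (p.1, p.2.1 / 2, p.2.2)) h2
        (by fun_prop)))
  · have := h4 x (d / 2) b
    simp only [F] at hd ⊢; split_ifs <;> omega
  · obtain ⟨bs, hb⟩ := (h5 x).1 hx
    have key : ∀ (l : List Bool) e, (l.flatMap fun b => [true, b]).foldl (F x) (2 * e) =
        2 * l.foldl (f x) e := by
      intro l
      induction l with
      | nil => exact fun _ => rfl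
      | cons b l ih =>
        intro e
        have : F x (F x (2 * e) true) b = 2 * f x e b := by
          simp only [F, Nat.mul_mod_right, if_true]
          rw [if_neg (by omega), show (2 * e + 1) / 2 = e by omega]
        simp only [List.flatMap_cons, List.cons_append, List.nil_append, List.foldl_cons, this, ih]
    have e0 : F x (F x d false) false = 2 * 0 := by
      by_cases hd : d % 2 = 0 <;> simp [F, hd]
    refine ⟨false :: false :: bs.flatMap fun b => [true, b], by simp, ?_⟩
    rw [List.foldl_cons, List.foldl_cons, e0, key]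
    simpa using hb
  · have key : ∀ bs : List Bool, ∃ l : List Bool, bs.foldl (F x) 0 / 2 = l.foldl (f x) 0 := by
      intro bs
      induction bs using List.reverseRecOn with
      | nil => exact ⟨[], by simp⟩
      | append_singleton bs b ih =>
        obtain ⟨l, ih⟩ := ih
        rw [List.foldl_append, List.foldl_cons, List.foldl_nil]
        generalize bs.foldl (F x) 0 = d at ih
        simp only [F]
        split_ifs with c1 c2
        · exact ⟨l, by omega⟩
        · exact ⟨[], rfl⟩
        · exact ⟨l ++ [b], by simp [ih]⟩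
    obtain ⟨l, hl⟩ := key bs
    exact (h5 x).2 ⟨l, hl ▸ h⟩

variable {k : ℕ}

/-- The bits emitted by a finite-state transducer. -/
def bits {T : Type} (t : T → Fin k → T) (bit : T → Fin k → Option Bool) :
    T → List (Fin k) → List Bool
  | _, [] => []
  | τ, a :: w => (bit τ a).toList ++ bits t bit (t τ a) w

theorem logRed_of_bits {T : Type} [Finite T] (τ0 : T) (t : T → Fin k → T)
    (bit : T → Fin k → Option Bool) {L : Language (Fin k)} (Q : List (Fin k) → Prop)
    (u0 y0 : List (Fin k)) (hn : Q []) (ha : ∀ u w, Q u → Q w → Q (u ++ w))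
    (hL : ∀ w, Q w → u0 ++ w ++ y0 ∈ L)
    (hT : ∀ τ, ∃ u : List (Fin k), ∀ l, ∃ c r, Q (u ++ c ++ r) ∧ bits t bit (u.foldl t τ) c = l)
    {A : List Bool → Bool} (hA : A ∈ NL) : LogReducible A (ConstrSync L) := by
  classical
  obtain ⟨S, f, acc, l1, l2, l3, s0, s1, s2, s3⟩ := exists_reset hA
  have := Fintype.ofFinite T
  let _ := Obj.ofFinite T
  let tl : List T := Finset.univ.toList
  have ht : ∀ τ, tl.idxOf τ < tl.length := fun τ => List.idxOf_lt_length_of_mem (by simp [tl])
  have ht1 : ∀ τ, tl.getD (tl.idxOf τ) τ0 = τ := fun τ => by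
    rw [List.getD_eq_getElem _ _ (ht τ), List.getElem_idxOf]
  have ht2 : ∀ j < tl.length, tl.idxOf (tl.getD j τ0) = j := fun j hj => by
    rw [List.getD_eq_getElem _ _ hj, (Finset.nodup_toList _).idxOf_getElem]
  let nx : List Bool → T × ℕ → Fin k → ℕ := fun x s a => (bit s.1 a).elim s.2 (f x s.2)
  let st : List Bool → Option (T × ℕ) → Fin k → Option (T × ℕ) := fun x s a =>
    s.bind fun s => if acc x (nx x s a) = true then none else some (t s.1 a, nx x s a)
  have hnx : LS fun p : (List Bool × Option (T × ℕ) × Fin k) × T × ℕ => nx p.1.1 p.2 p.1.2.2 :=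
    LS.optElim (LS.finite_comp (fun q : T × Fin k => bit q.1 q.2) (g := fun p :
      (List Bool × Option (T × ℕ) × Fin k) × T × ℕ => (p.2.1, p.1.2.2)) (by fun_prop))
      (by fun_prop) (LS.comp (fun p : List Bool × ℕ × Bool => f p.1 p.2.1 p.2.2)
        (fun p : ((List Bool × Option (T × ℕ) × Fin k) × T × ℕ) × Bool =>
          (p.1.1.1, p.1.2.2, p.2)) l2 (by fun_prop))
  have hls : LS fun p : List Bool × Option (T × ℕ) × Fin k => st p.1 p.2.1 p.2.2 :=
    LS.optBind (by fun_prop) (LS.ite (LS.decide_eq_true (LS.comp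
      (fun p : List Bool × ℕ => acc p.1 p.2) _ l3 (LS.pair (by fun_prop) hnx))) (LS.const _)
      (LS.some (LS.pair (LS.finite_comp (fun q : T × Fin k => t q.1 q.2) (g := fun p :
        (List Bool × Option (T × ℕ) × Fin k) × T × ℕ => (p.2.1, p.1.2.2)) (by fun_prop)) hnx)))
  have dead : ∀ x (w : List (Fin k)), w.foldl (st x) none = none := fun x w => by
    induction w with
    | nil => rfl
    | cons a w ih => exact ih
  have run : ∀ x (w : List (Fin k)) τ d, (w.foldl (st x) (some (τ, d)) = none ∧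
      ∃ bs : List Bool, acc x (bs.foldl (f x) d) = true) ∨
      (w.foldl (st x) (some (τ, d)) = some (w.foldl t τ, (bits t bit τ w).foldl (f x) d) ∧
        (w ≠ [] → acc x ((bits t bit τ w).foldl (f x) d) ≠ true)) := by
    intro x w
    induction w with
    | nil => exact fun τ d => .inr ⟨rfl, fun h => absurd rfl h⟩
    | cons a w ih =>
      intro τ d
      have e : nx x (τ, d) a = (bit τ a).toList.foldl (f x) d := by
        simp only [nx]; cases bit τ a <;> rfl
      by_cases h : acc x (nx x (τ, d) a) = true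
      · exact .inl ⟨by simp only [List.foldl_cons, st, Option.bind_some, if_pos h]; exact dead x w,
          _, e ▸ h⟩
      · have e1 : st x (some (τ, d)) a = some (t τ a, nx x (τ, d) a) := if_neg h
        rw [List.foldl_cons, e1, List.foldl_cons, bits, List.foldl_append, ← e]
        rcases ih (t τ a) (nx x (τ, d) a) with ⟨h1, bs, h2⟩ | ⟨h1, h2⟩
        · exact .inl ⟨h1, (bit τ a).toList ++ bs, by rwa [List.foldl_append, ← e]⟩
        · refine .inr ⟨h1, fun _ => ?_⟩
          rcases w with _ | ⟨a', w⟩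
          · exact h
          · exact h2 (by simp)
  let code : List Bool → Option (T × ℕ) → ℕ := fun _ s =>
    s.elim 0 fun s => s.2 * tl.length + tl.idxOf s.1 + 1
  let decode : List Bool → ℕ → Option (T × ℕ) := fun _ j =>
    if j = 0 then none else some (tl.getD ((j - 1) % tl.length) τ0, (j - 1) / tl.length)
  have h1 : ∀ x (s : Option (T × ℕ)), (∀ q ∈ s, q.2 < S x) →
      code x s < S x * tl.length + 1 ∧ decode x (code x s) = s := by
    rintro x (_ | ⟨τ, d⟩) h
    · exact ⟨Nat.succ_pos _, rfl⟩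
    · refine ⟨Nat.succ_lt_succ (pr_lt (h _ rfl) (ht _)), ?_⟩
      simp only [code, decode, Option.elim_some, Nat.add_sub_cancel, pr_mod (ht _), pr_div (ht _),
        ht1]
      rfl
  refine logRed_of_aut (N := fun x => S x * tl.length + 1) (code := code) (decode := decode)
    (good := fun x s => ∀ q ∈ s, q.2 < S x) (step := st) (by fun_prop) ?_ h1 ?_ ?_
    (fun x => Nat.succ_pos _) fun x => ⟨fun hx => ?_, ?_⟩
  · have h1 : LS fun p : List Bool × ℕ × Fin k => st p.1 (decode p.1 p.2.1) p.2.2 :=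
      LS.comp _ (fun p : List Bool × ℕ × Fin k => (p.1, decode p.1 p.2.1, p.2.2)) hls (by fun_prop)
    have h2 : LS fun p : List Bool × Option (T × ℕ) => code p.1 p.2 := by fun_prop
    exact LS.comp _ (fun p : List Bool × ℕ × Fin k => (p.1, st p.1 (decode p.1 p.2.1) p.2.2))
      h2 (LS.pair LS.fst' h1)
  · intro x j hj
    by_cases h0 : j = 0
    · simp [code, decode, h0]
    · have a3 : j - 1 < S x * tl.length := by omega
      simp only [code, decode, h0, if_false, Option.elim_some, ht2 _ (mod_lt_of_lt a3),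
        Nat.div_add_mod']
      refine ⟨fun q hq => ?_, by omega⟩
      obtain rfl := Option.some.inj hq
      exact div_lt_of_lt a3
  · rintro x (_ | ⟨τ, d⟩) a h q hq
    · cases hq
    · have hd := h _ rfl
      simp only [st, Option.bind_some, Option.mem_def] at hq
      split_ifs at hq
      obtain rfl := Option.some.inj hq
      simp only [nx]
      rcases bit τ a with _ | b
      · exact hd
      · exact s1 x d b hd
  · have one : ∀ s, ∃ w, Q w ∧ w.foldl (st x) s = none := by
      rintro (_ | ⟨τ, d⟩)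
      · exact ⟨[], hn, rfl⟩
      obtain ⟨u, hu⟩ := hT τ
      obtain ⟨l, b1, b2⟩ := s2 x hx ((bits t bit τ u).foldl (f x) d)
      obtain ⟨c, r, b3, b4⟩ := hu l
      refine ⟨_, b3, ?_⟩
      rw [List.foldl_append, List.foldl_append]
      rcases run x u τ d with ⟨e, -⟩ | ⟨e, -⟩ <;> rw [e]
      · rw [dead, dead]
      · rcases run x c (u.foldl t τ) ((bits t bit τ u).foldl (f x) d) with ⟨e, -⟩ | ⟨-, e⟩
        · rw [e, dead]
        · exact absurd (b4 ▸ b2) (e (by rintro rfl; exact b1 b4.symm))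
    have all : ∀ n, ∃ w, Q w ∧ ∀ j < n, w.foldl (st x) (u0.foldl (st x) (decode x j)) = none := by
      intro n
      induction n with
      | zero => exact ⟨[], hn, by simp⟩
      | succ n ih =>
        obtain ⟨w, b1, b2⟩ := ih
        obtain ⟨w', b3, b4⟩ := one (w.foldl (st x) (u0.foldl (st x) (decode x n)))
        refine ⟨w ++ w', ha _ _ b1 b3, fun j hj => ?_⟩
        rw [List.foldl_append]
        rcases Nat.lt_succ_iff_lt_or_eq.1 hj with hj | rfl
        · rw [b2 j hj, dead]
        · exact b4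
    obtain ⟨w, b1, b2⟩ := all (S x * tl.length + 1)
    have : ∀ s : Option (T × ℕ), (∀ q ∈ s, q.2 < S x) → (u0 ++ w ++ y0).foldl (st x) s = none :=
      fun s hs => by
        rw [List.foldl_append, List.foldl_append, ← (h1 x s hs).2, b2 _ (h1 x s hs).1, dead]
    exact ⟨_, hL w b1, fun s s' hs hs' => by rw [this s hs, this s' hs']⟩
  · rintro ⟨w, -, h2⟩
    have := h2 none (some (τ0, 0)) (by simp) (by simpa using s0 x)
    rw [dead] at this
    rcases run x w τ0 0 with ⟨-, bs, e⟩ | ⟨e, -⟩
    · exact s3 x bs e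
    · rw [e] at this; cases this

variable {P : Type} [Finite P] {δ : P → Fin k → P} {p0 : P} {F : Set P}

theorem hard_of_not_nonBr {L : Language (Fin k)} (hL : ∀ w, w ∈ L ↔ w.foldl δ p0 ∈ F)
    (h : ¬NonBr δ p0 F) {A : List Bool → Bool} (hA : A ∈ NL) : LogReducible A (ConstrSync L) := by
  have hU : ∀ p q, Useful δ p0 F p → Sim δ p q → Useful δ p0 F q := fun _ _ => Useful.of_sim
  unfold NonBr at h
  push Not at h
  obtain ⟨r, hr, a, b, ha, hb, hab⟩ := h
  obtain ⟨q, ⟨h1, h2⟩, h3⟩ :=
    (Set.toFinite {q | Useful δ p0 F q ∧ ∀ w, CC δ r w → CC δ q w}).exists_maximalFor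
    (fun q => {w | CC δ q w}) _ ⟨r, hr, fun _ => id⟩
  obtain ⟨t, ht⟩ := id ha
  obtain ⟨m0, -, c1, c2⟩ := exists_magic hU hr (u := a :: t) ht (by simp)
  obtain ⟨q', d1, d2⟩ := h2 _ (rd_loop c1).cc
  have hs : Sim δ q (m0.foldl δ q') := d1.trans d2.sim
  have c3 := (c2 _ ⟨q', trivial, h1.of_sim d1, d2, rfl⟩).1
  generalize m0.foldl δ q' = p at hs c3
  obtain ⟨t', ht'⟩ := c3 _ ha
  obtain ⟨m, e1, e2, e3⟩ := exists_magic hU (h1.of_sim hs) (u := a :: t') ht' (by simp)
  have M : Magic δ (Useful δ p0 F) p m := ⟨hU, h1.of_sim hs, e1, e2, e3, fun q2 f1 f2 w hw =>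
    CC.of_sim (h3 (j := q2) ⟨f1, fun w hw => f2 w ((h2 w hw).of_sim hs)⟩
      (fun w hw => f2 w (CC.of_sim hw hs)) hw) hs⟩
  obtain ⟨⟨x, hx⟩, y, hy⟩ := M.hp
  have run : ∀ (w : List (Fin k)) S, Fol δ p S w → bits (t1 δ (Useful δ p0 F) p)
      (fun S => bitOf a b (Rd δ p) (Fol δ p S)) S w = bitsF a b (Rd δ p) (Fol δ p S) w := by
    intro w
    induction w with
    | nil => exact fun _ _ => rfl
    | cons a' w ih =>
      intro S h
      have h1 : Fol δ p S [a'] := Fol.of_append (u := [a']) h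
      have h3 : Fol δ p (t1 δ (Useful δ p0 F) p S a') = fun y => Fol δ p S (a' :: y) :=
        funext fun y => propext (M.fol_foldl h1 y)
      rw [bits, bitsF, ih _ (by rw [h3]; exact h), h3]
  refine logRed_of_bits ∅ (t1 δ (Useful δ p0 F) p) (fun S => bitOf a b (Rd δ p) (Fol δ p S))
    (fun w => w.foldl δ p = p) x y rfl (fun u w h1 h2 => by rw [List.foldl_append, h1, h2])
    (fun w hw => (hL _).2 (by simpa [hx, hw] using hy)) (fun S => ⟨m ++ m, fun l => ?_⟩) hA
  obtain ⟨c, hc1, hc2⟩ := exists_codeword a b hab (c3 _ ha) (c3 _ hb) l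
  have hc : Rd δ p c := by simpa using (congrFun hc1 []).mpr (Rd.nil p)
  obtain ⟨r, hr⟩ := id hc
  have lock := (M.lock_mm S).2
  exact ⟨c, r, by simpa [e2] using hr, by rw [run _ _ (by rw [lock]; exact hc), lock, hc2]⟩

end Pool.Agent.Work.MP_dbfdd9_lc.Hedge
end

-- merged part: Pool.Agent.Work.MP_dbfdd9_lc.Hedge.NLMem
section
/-!
Membership in `NL`: iterating an `LS` function of a polynomially bounded number and a guessed bit.
-/

namespace Pool.Agent.Work.MP_dbfdd9_lc.Hedge

open Pool.Agent.Lib.Cx Function Prog Obj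

/-- Registers holding the state and the guessed bit. -/
def regs (s : ℕ) (b : Bool) : ℕ → ℕ := update (update (fun _ => 0) 0 s) 1 b.toNat

/-- The same in binary. -/
def os (s : ℕ) (b : Bool) : OS := RS.toO ⟨regs s b, 0, []⟩

theorem exists_round {f : List Bool → ℕ → Bool → ℕ}
    (hf : LS fun p : List Bool × ℕ × Bool => f p.1 p.2.1 p.2.2) {B : List Bool → ℕ} (hB : LS B) :
    ∃ (P : OP) (p : Polynomial ℕ), ∀ x s b, s ≤ B x →
      OInv (Nat.log 2 (p.eval x.length) + 1) (os s b) ∧ ∃ n,
      RunLe (osem x) (OInv (Nat.log 2 (p.eval x.length) + 1)) P (os s b) (os (f x s b) false) n := by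
  have h1 : LS fun q : ℕ × ℕ × Str => f q.2.2.val q.1 (decide (q.2.1 = 1)) :=
    LS.comp _ (fun q : ℕ × ℕ × Str => (q.2.2.val, q.1, decide (q.2.1 = 1))) hf (by fun_prop)
  have h2 : LS fun s : Str => B s.val := by fun_prop
  obtain ⟨e, p, he⟩ := LS.nat_iff.1 h1
  obtain ⟨pB, hpB⟩ := (LS.nat_iff.1 h2).bound
  let ρ : ℕ → Loc := Loc.cons (.reg 0) (Loc.cons (.reg 1) (Loc.cons .inp fun _ => .emp))
  let P : RP := .seq (e.compile ρ 2) (.seq (RP.clear 0) (.seq (RP.clear 1) (RP.move 2 0)))
  refine ⟨P.bind RA.toO RT.toO, p.comp (pB + 1 + Polynomial.X) + pB + 1, fun x s b hs => ?_⟩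
  set D := (p.comp (pB + 1 + Polynomial.X) + pB + 1).eval x.length with hD
  have hs1 : s ≤ pB.eval x.length := hs.trans (by simpa using hpB (Str.mk x))
  have hb : b.toNat ≤ 1 := Bool.toNat_le b
  have hD1 : D = p.eval (pB.eval x.length + 1 + x.length) + pB.eval x.length + 1 := by simp [hD]
  have hr : ∀ r, regs s b r ≤ D := fun r => by
    simp only [regs, update_apply]; split_ifs <;> omega
  obtain ⟨e1, e2⟩ := he (s, b.toNat, Str.mk x)
  have e3 : decide (b.toNat = 1) = b := by cases b <;> rfl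
  simp only [Str.val_mk, e3] at e1
  have e4 : e.Bdd D (enc (s, b.toNat, Str.mk x)) := e2.mono ((peval_mono p
    (b := pB.eval x.length + 1 + x.length) (by
    simp only [sz_prod, sz_nat, sz_str, Str.val_mk]; omega)).trans (by omega))
  have l1 := E.compile_spec (x := x) (B := D) e ρ 2 (regs s b) [] (enc (s, b.toNat, Str.mk x))
    (fun j => by rcases j with _ | _ | _ | j <;> simp [ρ, Loc.cons, Loc.Lt])
    (fun j => by
      rw [enc_nat_prod, enc_nat_prod, enc_str]
      rcases j with _ | _ | _ | j <;> simp [ρ, Loc.cons, Loc.val, regs])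
    (fun r h => by simp only [regs, update_apply]; split_ifs <;> omega) hr e4
  have hv := e4.eval_le
  rw [e1] at l1 hv
  have l2 := RP.run_clear (x := x) (p := 0) (o := []) (l1.inv hr) 0
  have l3 := RP.run_clear (x := x) (p := 0) (o := []) (l2.inv (l1.inv hr)) 1
  have l4 := RP.run_move (x := x) (p := 0) (o := []) (l3.inv (l2.inv (l1.inv hr))) (a := 2) (b := 0)
    (by omega) (by simpa using hv)
  have l5 := (l1.seq (l2.seq (l3.seq l4))).cast (s'' := ⟨regs (f x s b) false, 0, []⟩) (by
    ext r <;> simp only [update_apply, regs]; split_ifs <;> simp_all)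
  refine ⟨fun k => ?_, _, RunLe.toO l5 hr⟩
  rcases k with _ | k
  · simp [os, RS.toO]
  · exact length_bin_le (hr k)

theorem head_bin (s : ℕ) : (bin s).head? = some true ↔ s % 2 = 1 := by
  have := bval_bin s
  rcases h : bin s with _ | ⟨_ | _, l⟩ <;> rw [h] at this <;> simp [bval] at this ⊢ <;> omega

variable (T : Transducer) (i1 i2 : Fin T.k) (tt : T.Γ)

open Classical in
/-- The acceptor that repeats: accept if tape `i1` shows `tt`, else guess a bit, store it on tape
`i2`, and run `T` until it halts. -/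
noncomputable def rep : NAcceptor where
  Q := T.Q ⊕ Option Bool
  Γ := T.Γ
  finQ := haveI := T.finQ; inferInstance
  finΓ := T.finΓ
  k := T.k
  start := .inr none
  blank := T.blank
  accept := {.inr (some true)}
  δ b q sym tops := match q with
    | .inl q => (T.δ q sym tops).elim (.inr none, .stay, fun i => (tops i, .stay))
        fun r => (.inl r.1, r.2.1, r.2.2.1)
    | .inr none => if tops i1 = tt then (.inr (some true), .stay, fun i => (tops i, .stay))
        else if b then (.inr (some false), .stay,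
          fun i => (tops i, if i = i2 then .right else .stay))
        else (.inl T.start, .stay, fun i => (tops i, .stay))
    | .inr (some false) => (.inl T.start, .stay, fun i => (if i = i2 then tt else tops i, .stay))
    | .inr (some true) => (.inr (some true), .stay, fun i => (tops i, .stay))

/-- Configurations of `T` inside the acceptor. -/
def emb (q : T.Q ⊕ Option Bool) (c : T.Cfg) : (rep T i1 i2 tt).Cfg := ⟨q, c.pos, c.tape, c.head⟩

variable {T i1 i2 tt} {x : List Bool}

theorem step_some {c d : T.Cfg} (h : T.step x c = some d) (b : Bool) :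
    (rep T i1 i2 tt).step x (emb T i1 i2 tt (.inl c.q) c) b = emb T i1 i2 tt (.inl d.q) d := by
  simp only [Transducer.step, Option.map_eq_some_iff] at h
  obtain ⟨r, h, rfl⟩ := h
  simp only [NAcceptor.step, rep, emb, h, Option.elim_some]

theorem step_none {c : T.Cfg} (h : T.step x c = none) (hp : c.pos = 0) (b : Bool) :
    (rep T i1 i2 tt).step x (emb T i1 i2 tt (.inl c.q) c) b = emb T i1 i2 tt (.inr none) c := by
  simp only [Transducer.step, Option.map_eq_none_iff, hp] at h
  simp [NAcceptor.step, rep, emb, h, Move.apply, hp]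

theorem step_acc {c : T.Cfg} (hp : c.pos = 0) (b : Bool) :
    (rep T i1 i2 tt).step x (emb T i1 i2 tt (.inr (some true)) c) b =
      emb T i1 i2 tt (.inr (some true)) c := by
  simp [NAcceptor.step, rep, emb, Move.apply, hp]

theorem step_yes {c : T.Cfg} (hp : c.pos = 0) (h : c.tape i1 (c.head i1) = tt) (b : Bool) :
    (rep T i1 i2 tt).step x (emb T i1 i2 tt (.inr none) c) b =
      emb T i1 i2 tt (.inr (some true)) c := by
  simp [NAcceptor.step, rep, emb, Move.apply, hp, h]

theorem step_false {c : T.Cfg} (hp : c.pos = 0) (h : c.tape i1 (c.head i1) ≠ tt) :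
    (rep T i1 i2 tt).step x (emb T i1 i2 tt (.inr none) c) false =
      emb T i1 i2 tt (.inl T.start) c := by
  simp [NAcceptor.step, rep, emb, Move.apply, hp, h]

theorem step_true {c d : T.Cfg} (hp : c.pos = 0) (h : c.tape i1 (c.head i1) ≠ tt)
    (hp' : d.pos = 0) (h1 : d.head = update c.head i2 (c.head i2 + 1))
    (h2 : d.tape = update c.tape i2 (update (c.tape i2) (c.head i2 + 1) tt)) (b : Bool) :
    ((rep T i1 i2 tt).step x (emb T i1 i2 tt (.inr none) c) true).head = d.head ∧
    ((rep T i1 i2 tt).step x (emb T i1 i2 tt (.inr none) c) true).q = .inr (some false) ∧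
    (rep T i1 i2 tt).step x ((rep T i1 i2 tt).step x (emb T i1 i2 tt (.inr none) c) true) b =
      emb T i1 i2 tt (.inl T.start) d := by
  simp only [NAcceptor.step, rep, emb, Move.apply, hp, h, hp', h1, h2, if_true, if_false,
    update_eq_self, Nat.zero_le, min_eq_left, true_and]
  refine ⟨?_, ?_⟩
  · funext i; by_cases hi : i = i2
    · subst hi; simp
    · simp [hi]
  · congr 1
    · funext i; by_cases hi : i = i2
      · subst hi; simp
      · simp [hi]
    · funext i; by_cases hi : i = i2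
      · subst hi; simp
      · simp [hi]

theorem foldl_sim (t : ℕ) : ∀ {c d : T.Cfg},
    (fun o : Option T.Cfg => o.bind (T.step x))^[t] (some c) = some d →
    (List.replicate t false).foldl ((rep T i1 i2 tt).step x) (emb T i1 i2 tt (.inl c.q) c) =
      emb T i1 i2 tt (.inl d.q) d := by
  induction t with
  | zero => intro c d h; cases h; rfl
  | succ t ih =>
    intro c d h
    rw [iterate_succ_apply, Option.bind_some] at h
    rcases hc : T.step x c with _ | c'
    · rw [hc, iterate_optBind_none] at h; cases h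
    · rw [hc] at h
      rw [List.replicate_succ, List.foldl_cons, step_some hc, ih h]

theorem halt_unique {σ : Type} {g : σ → Option σ} {a c d : σ} {t u : ℕ}
    (h1 : (fun o : Option σ => o.bind g)^[t] (some a) = some c) (h2 : g c = none)
    (h3 : (fun o : Option σ => o.bind g)^[u] (some a) = some d) (h4 : g d = none) : c = d := by
  have key : ∀ {c d : σ} {t r : ℕ}, (fun o : Option σ => o.bind g)^[t] (some a) = some c →
      g c = none → (fun o : Option σ => o.bind g)^[r + t] (some a) = some d → c = d := by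
    intro c d t r h1 h2 h3
    rw [iterate_add_apply, h1] at h3
    rcases r with _ | r
    · exact Option.some.inj h3
    · rw [iterate_succ_apply, Option.bind_some, h2, iterate_optBind_none] at h3; cases h3
  rcases le_total t u with h | h
  · obtain ⟨r, rfl⟩ := Nat.exists_eq_add_of_le' h; exact key h1 h2 h3
  · obtain ⟨r, rfl⟩ := Nat.exists_eq_add_of_le' h; exact (key h3 h4 h1).symm

theorem mem_NL_of_ls {f : List Bool → ℕ → Bool → ℕ}
    (hf : LS fun p : List Bool × ℕ × Bool => f p.1 p.2.1 p.2.2) {B : List Bool → ℕ} (hB : LS B)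
    (hb : ∀ x (bs : List Bool), bs.foldl (f x) 0 ≤ B x) {A : List Bool → Bool}
    (h : ∀ x, A x = true ↔ ∃ bs : List Bool, bs.foldl (f x) 0 % 2 = 1) : A ∈ NL := by
  obtain ⟨P, p, hP⟩ := exists_round hf hB
  obtain ⟨m0, hm0⟩ := exists_all_lt OA.idx OT.idx P
  have hm : All (fun a => a.idx < m0 + 3) (fun t => t.idx < m0 + 3) P :=
    hm0.mono (fun _ h => by omega) (fun _ h => by omega)
  obtain ⟨C, hC⟩ := exists_log_bound p
  let T := P.tr (m0 + 3)
  let i1 : Fin T.k := (⟨1, by omega⟩ : Fin (m0 + 3))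
  let i2 : Fin T.k := (⟨2, by omega⟩ : Fin (m0 + 3))
  let tt : T.Γ := (some true : Option Bool)
  let c0 : ℕ → Bool → T.Cfg := fun s b => P.cfg (m0 + 3) (some (entry P), os s b)
  let cE : ℕ → T.Cfg := fun s => P.cfg (m0 + 3) (none, os s false)
  let M := rep T i1 i2 tt
  let em := emb T i1 i2 tt
  refine ⟨M, C, fun x => ?_⟩
  have top : ∀ s, (cE s).tape i1 ((cE s).head i1) = tt ↔ s % 2 = 1 := fun s => by
    rw [← head_bin]
    exact Iff.of_eq (congrArg (· = some true) (tapeOf_top (bin s)))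
  have hrun : ∀ s b, s ≤ B x → (∃ t, (fun o : Option T.Cfg => o.bind (T.step x))^[t]
      (some (c0 s b)) = some (cE (f x s b))) ∧ ∀ t d,
      (fun o : Option T.Cfg => o.bind (T.step x))^[t] (some (c0 s b)) = some d →
        ∀ i, d.head i ≤ Nat.log 2 (p.eval x.length) + 1 := fun s b hs => by
    obtain ⟨h1, n, k, -, h2⟩ := hP x s b hs
    exact Steps.tr hm (h2.steps h1) h1 (Nat.zero_le _) rfl
  have tr := fun s (hs : ¬s % 2 = 1) => step_true (x := x) (i2 := i2) (c := cE s)
    (d := c0 s true) rfl (mt (top s).1 hs) rfl (by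
      funext i
      by_cases hi : i = i2
      · subst hi; rfl
      · rw [update_of_ne hi]
        obtain ⟨_ | _ | _ | i, h⟩ := i
        · rfl
        · rfl
        · exact absurd rfl hi
        · rfl) (by
      funext i
      by_cases hi : i = i2
      · subst hi; rw [update_self]; exact (tapeOf_push [] true).symm
      · rw [update_of_ne hi]
        obtain ⟨_ | _ | _ | i, h⟩ := i
        · rfl
        · rfl
        · exact absurd rfl hi
        · rfl)
  have init : M.run x [] = em (.inr none) (cE 0) := by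
    simp only [NAcceptor.run, List.foldl_nil, em, emb, cE, OP.cfg]
    congr 1
    · funext i j
      obtain ⟨_ | _ | _ | i, h⟩ := i <;> simp [os, RS.toO, regs, bin, tapeOf, inputSym] <;> rfl
    · funext i
      obtain ⟨_ | _ | _ | i, h⟩ := i <;> simp [os, RS.toO, regs, bin]
  have snoc : ∀ cs b, M.run x (cs ++ [b]) = M.step x (M.run x cs) b := fun cs b => by
    simp [NAcceptor.run]
  have inv : ∀ cs, ∃ bs : List Bool, M.run x cs = em (.inr none) (cE (bs.foldl (f x) 0)) ∨
      (bs.foldl (f x) 0 % 2 = 1 ∧ M.run x cs = em (.inr (some true)) (cE (bs.foldl (f x) 0))) ∨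
      (¬bs.foldl (f x) 0 % 2 = 1 ∧
        M.run x cs = M.step x (em (.inr none) (cE (bs.foldl (f x) 0))) true) ∨
      ∃ b t c, (fun o : Option T.Cfg => o.bind (T.step x))^[t]
        (some (c0 (bs.foldl (f x) 0) b)) = some c ∧ M.run x cs = em (.inl c.q) c := by
    intro cs
    induction cs using List.reverseRecOn with
    | nil => exact ⟨[], .inl init⟩
    | append_singleton cs b ih =>
      obtain ⟨bs, ih | ⟨h1, ih⟩ | ⟨h1, ih⟩ | ⟨b', t, c, h1, ih⟩⟩ := ih <;> rw [snoc, ih]
      · by_cases h1 : bs.foldl (f x) 0 % 2 = 1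
        · exact ⟨bs, .inr (.inl ⟨h1, step_yes rfl ((top _).2 h1) b⟩)⟩
        · cases b
          · exact ⟨bs, .inr (.inr (.inr ⟨false, 0, _, rfl, step_false rfl (mt (top _).1 h1)⟩))⟩
          · exact ⟨bs, .inr (.inr (.inl ⟨h1, rfl⟩))⟩
      · exact ⟨bs, .inr (.inl ⟨h1, step_acc rfl b⟩)⟩
      · exact ⟨bs, .inr (.inr (.inr ⟨true, 0, _, rfl, (tr _ h1 b).2.2⟩))⟩
      · rcases hc : T.step x c with _ | d
        · obtain ⟨u, hu⟩ := (hrun _ b' (hb x bs)).1
          obtain rfl := halt_unique h1 hc hu rfl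
          exact ⟨bs ++ [b'], .inl (by rw [List.foldl_append]; exact step_none hc rfl b)⟩
        · exact ⟨bs, .inr (.inr (.inr ⟨b', t + 1, d, by
            rw [iterate_succ_apply', h1, Option.bind_some, hc], step_some hc b⟩))⟩
  refine ⟨(h x).trans ⟨fun ⟨bs, h1⟩ => ?_, fun ⟨cs, h1⟩ => ?_⟩, fun cs i => le_trans ?_ (hC _)⟩
  · have key : ∀ bs : List Bool, ∃ cs, M.run x cs = em (.inr none) (cE (bs.foldl (f x) 0)) ∨
        (M.run x cs).q ∈ M.accept := by
      intro bs
      induction bs using List.reverseRecOn with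
      | nil => exact ⟨[], .inl init⟩
      | append_singleton bs b ih =>
        obtain ⟨cs, ih | ih⟩ := ih
        swap
        · exact ⟨cs, .inr ih⟩
        by_cases h1 : bs.foldl (f x) 0 % 2 = 1
        · exact ⟨cs ++ [b], .inr (by rw [snoc, ih, step_yes rfl ((top _).2 h1)]; rfl)⟩
        obtain ⟨u, hu⟩ := (hrun _ b (hb x bs)).1
        obtain ⟨cs', h2⟩ : ∃ cs', M.run x cs' = em (.inl T.start) (c0 (bs.foldl (f x) 0) b) := by
          cases b
          · exact ⟨cs ++ [false], by rw [snoc, ih]; exact step_false rfl (mt (top _).1 h1)⟩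
          · exact ⟨cs ++ [true] ++ [true], by rw [snoc, snoc, ih]; exact (tr _ h1 true).2.2⟩
        refine ⟨cs' ++ List.replicate u false ++ [false], .inl ?_⟩
        have h3 : M.run x (cs' ++ List.replicate u false) =
            em (.inl (cE (f x (bs.foldl (f x) 0) b)).q) (cE (f x (bs.foldl (f x) 0) b)) := by
          rw [NAcceptor.run, List.foldl_append]
          exact (congrArg (fun c => (List.replicate u false).foldl (M.step x) c) h2).trans
            (foldl_sim u hu)
        rw [snoc, h3, List.foldl_append]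
        exact step_none rfl rfl false
    obtain ⟨cs, h2 | h2⟩ := key bs
    · exact ⟨cs ++ [false], by rw [snoc, h2, step_yes rfl ((top _).2 h1)]; rfl⟩
    · exact ⟨cs, h2⟩
  · obtain ⟨bs, h2 | ⟨h2, -⟩ | ⟨h3, h2⟩ | ⟨b', t, c, -, h2⟩⟩ := inv cs
    · rw [h2] at h1; cases h1
    · exact ⟨bs, h2⟩
    · rw [h2] at h1
      have := (tr _ h3 true).2.1.symm.trans h1
      cases this
    · rw [h2] at h1; cases h1
  · obtain ⟨bs, h2 | ⟨-, h2⟩ | ⟨h3, h2⟩ | ⟨b', t, c, h3, h2⟩⟩ := inv cs <;> rw [h2]
    · exact (hP x _ false (hb x bs)).1 _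
    · exact (hP x _ false (hb x bs)).1 _
    · rw [(tr _ h3 true).1]
      exact (hP x _ true (hb x bs)).1 _
    · exact (hrun _ b' (hb x bs)).2 t c h3 i

end Pool.Agent.Work.MP_dbfdd9_lc.Hedge
end

-- merged part: Pool.Agent.Work.MP_dbfdd9_lc.Hedge.MemNL
section
/-!
Reachability in implicitly given graphs is in `NL`; synchronization by a loop is in `NL`.
-/

namespace Pool.Agent.Work.MP_dbfdd9_lc.Hedge

open Pool.Agent.Lib.Cx Relation

theorem mem_NL_of_graph {St : Type} [Obj St] {N : List Bool → ℕ} {dc : List Bool → ℕ → St}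
    {E : List Bool → St → St → Bool} {acc : List Bool → St → Bool} (hN : LS N)
    (hdc : LS fun p : List Bool × ℕ => dc p.1 p.2)
    (hE : LS fun p : List Bool × St × St => E p.1 p.2.1 p.2.2)
    (hacc : LS fun p : List Bool × St => acc p.1 p.2) (h0 : ∀ x, 0 < N x) {A : List Bool → Bool}
    (h : ∀ x, A x = true ↔ ∃ t, ReflTransGen (fun u v => (∃ j < N x, dc x j = v) ∧ E x u v = true)
      (dc x 0) t ∧ acc x t = true) : A ∈ NL := by
  let f : List Bool → ℕ → Bool → ℕ := fun x s b =>
    if s % 2 = 1 ∨ acc x (dc x (s / 2 / N x)) = true then 1 else if b = true then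
      (if E x (dc x (s / 2 / N x)) (dc x (s / 2 % N x)) = true then 2 * (s / 2 % N x * N x + 0)
        else s)
      else 2 * (s / 2 / N x * N x + (s / 2 % N x + 1) % N x)
  have hdc' : ∀ {g : List Bool × ℕ × Bool → ℕ}, LS g → LS fun p => dc p.1 (g p) := fun hg =>
    LS.comp _ _ hdc (LS.pair LS.fst' hg)
  have a1 : LS fun p : List Bool × ℕ × Bool => acc p.1 (dc p.1 (p.2.1 / 2 / N p.1)) :=
    LS.comp _ _ hacc (LS.pair LS.fst' (hdc' (by fun_prop)))
  have a2 : LS fun p : List Bool × ℕ × Bool =>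
      E p.1 (dc p.1 (p.2.1 / 2 / N p.1)) (dc p.1 (p.2.1 / 2 % N p.1)) :=
    LS.comp _ _ hE (LS.pair LS.fst' (LS.pair (hdc' (by fun_prop)) (hdc' (by fun_prop))))
  have hf : LS fun p : List Bool × ℕ × Bool => f p.1 p.2.1 p.2.2 :=
    LS.ite (LS.decide_or (by fun_prop) (LS.decide_eq_true a1)) (by fun_prop)
      (LS.ite (LS.decide_eq_true (by fun_prop)) (LS.ite (LS.decide_eq_true a2) (by fun_prop)
        (by fun_prop)) (by fun_prop))
  have f1 : ∀ x b, f x 1 b = 1 := fun x b => if_pos (.inl rfl)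
  have f2 : ∀ x i c b, c < N x → f x (2 * (i * N x + c)) b = if acc x (dc x i) = true then 1 else
      if b = true then (if E x (dc x i) (dc x c) = true then 2 * (c * N x + 0)
        else 2 * (i * N x + c)) else 2 * (i * N x + (c + 1) % N x) := fun x i c b hc => by
    simp only [f, Nat.mul_div_cancel_left _ Nat.two_pos, pr_div hc, pr_mod hc, Nat.mul_mod_right,
      Nat.zero_ne_one, false_or]
  have inv : ∀ x (bs : List Bool), (bs.foldl (f x) 0 = 1 ∧ A x = true) ∨ ∃ i < N x, ∃ c < N x,
      bs.foldl (f x) 0 = 2 * (i * N x + c) ∧ ReflTransGen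
        (fun u v => (∃ j < N x, dc x j = v) ∧ E x u v = true) (dc x 0) (dc x i) := by
    intro x bs
    induction bs using List.reverseRecOn with
    | nil => exact .inr ⟨0, h0 x, 0, h0 x, by simp, .refl⟩
    | append_singleton bs b ih =>
      rw [List.foldl_append, List.foldl_cons, List.foldl_nil]
      obtain ⟨h1, h2⟩ | ⟨i, hi, c, hc, h1, h2⟩ := ih <;> rw [h1]
      · exact .inl ⟨f1 x b, h2⟩
      · rw [f2 x i c b hc]
        split_ifs with c1 c2 c3
        · exact .inl ⟨rfl, (h x).2 ⟨_, h2, c1⟩⟩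
        · exact .inr ⟨c, hc, 0, h0 x, rfl, h2.tail ⟨⟨c, hc, rfl⟩, c3⟩⟩
        · exact .inr ⟨i, hi, c, hc, rfl, h2⟩
        · exact .inr ⟨i, hi, _, Nat.mod_lt _ (h0 x), rfl, h2⟩
  refine mem_NL_of_ls hf (B := fun x => 2 * (N x * N x) + 1) (by fun_prop) (fun x bs => ?_)
    fun x => ⟨fun hx => ?_, fun ⟨bs, hb⟩ => ?_⟩
  · obtain ⟨h1, -⟩ | ⟨i, hi, c, hc, h1, -⟩ := inv x bs <;> rw [h1]
    · omega
    · have := pr_lt hi hc; omega
  · obtain ⟨t, h1, h2⟩ := (h x).1 hx
    have key : ∃ bs : List Bool, bs.foldl (f x) 0 = 1 ∨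
        ∃ i, dc x i = t ∧ bs.foldl (f x) 0 = 2 * (i * N x + 0) := by
      clear h2
      induction h1 with
      | refl => exact ⟨[], .inr ⟨0, rfl, by simp⟩⟩
      | tail _ h3 ih =>
        obtain ⟨bs, ih | ⟨i, rfl, ih⟩⟩ := ih
        · exact ⟨bs, .inl ih⟩
        obtain ⟨⟨j, hj, rfl⟩, h3⟩ := h3
        by_cases ha : acc x (dc x i) = true
        · exact ⟨bs ++ [true], .inl (by
            rw [List.foldl_append, ih, List.foldl_cons, List.foldl_nil, f2 x i 0 true (h0 x),
              if_pos ha])⟩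
        have cnt : ∀ c < N x, (List.replicate c false).foldl (f x) (2 * (i * N x + 0)) =
            2 * (i * N x + c) := by
          intro c
          induction c with
          | zero => exact fun _ => rfl
          | succ c ihc =>
            intro hc
            rw [List.replicate_succ', List.foldl_append, ihc (by omega), List.foldl_cons,
              List.foldl_nil, f2 x i c false (by omega), if_neg ha, if_neg (by simp),
              Nat.mod_eq_of_lt hc]
        refine ⟨bs ++ List.replicate j false ++ [true], .inr ⟨j, rfl, ?_⟩⟩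
        rw [List.foldl_append, List.foldl_append, ih, cnt j hj, List.foldl_cons, List.foldl_nil,
          f2 x i j true hj, if_neg ha, if_pos rfl, if_pos h3]
    obtain ⟨bs, h3 | ⟨i, rfl, h3⟩⟩ := key
    · exact ⟨bs, by rw [h3]⟩
    · exact ⟨bs ++ [true], by
        rw [List.foldl_append, h3, List.foldl_cons, List.foldl_nil, f2 x i 0 true (h0 x),
          if_pos h2]⟩
  · obtain ⟨-, h1⟩ | ⟨i, -, c, -, h1, -⟩ := inv x bs
    · exact h1
    · omega

variable {k : ℕ} {B : Type} [Finite B] (β : B → Fin k → B) (b0 : B) (FB : Set B)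

open Classical in
theorem loop_mem_NL {G : List Bool → Bool} (hG : LS G) :
    (fun s => decide (Valid k s ∧ LoopSync β b0 FB s) || G s) ∈ NL := by
  obtain ⟨c, e, he, hlt, -, hok, hrun⟩ := exists_code β
  have := Fintype.ofFinite B
  let UL : List ℕ := ((Finset.univ.filter (Useful β b0 FB)).image e).toList
  have hUL : ∀ j, j ∈ UL ↔ ∃ p, Useful β b0 FB p ∧ e p = j := fun j => by simp [UL]
  let K : List Bool → ℕ := fun s => nOf c + nOf s * nOf s + nOf s + 1
  let dc : List Bool → ℕ → ℕ × ℕ × ℕ × ℕ × ℕ := fun s i =>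
    (i / K s / K s / K s / K s, i / K s / K s / K s % K s, i / K s / K s % K s, i / K s % K s,
      i % K s)
  let E : List Bool → ℕ × ℕ × ℕ × ℕ × ℕ → ℕ × ℕ × ℕ × ℕ × ℕ → Bool := fun s u v =>
    decide ((u.1 = 0 ∧ v.2.2.1 ∈ UL ∧ v = (v.2.2.1 + 1, 0, v.2.2.1, 0, 0)) ∨
      (u.1 ≠ 0 ∧ ((∃ a < k, v = (u.1, u.2.1, dec k c u.2.2.1 a, dec k s u.2.2.2.1 a,
        dec k s u.2.2.2.2 a)) ∨ (u.1 = u.2.2.1 + 1 ∧ u.2.2.2.1 = u.2.2.2.2 ∧
        v = (u.1, u.2.1 + 1, u.2.2.1, (u.2.1 + 1) / nOf s % nOf s, (u.2.1 + 1) % nOf s)))))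
  let acc : List Bool → ℕ × ℕ × ℕ × ℕ × ℕ → Bool := fun s t =>
    decide (Valid k s ∧ 0 < nOf s ∧ t.1 ≠ 0 ∧ t.2.1 = nOf s * nOf s) || G s
  have hK : LS K := by fun_prop
  have K0 : ∀ s, 0 < K s := fun s => Nat.succ_pos _
  refine mem_NL_of_graph (N := fun s => K s * K s * K s * K s * K s) (dc := dc) (E := E)
    (acc := acc) (by fun_prop) (by fun_prop) (by fun_prop) (by fun_prop)
    (fun s => by have := K0 s; positivity) fun s => ?_
  have d0 : dc s 0 = (0, 0, 0, 0, 0) := by simp [dc]
  rw [d0]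
  by_cases hg : G s = true
  · exact ⟨fun _ => ⟨_, .refl, by simp [acc, hg]⟩, fun _ => by simp [hg]⟩
  simp only [acc, hg, Bool.or_false, decide_eq_true_eq, Bool.false_eq_true, or_false,
    Bool.or_eq_true]
  have sur : ∀ {a b c' d e'}, a < K s → b < K s → c' < K s → d < K s → e' < K s →
      ∃ j < K s * K s * K s * K s * K s, dc s j = (a, b, c', d, e') :=
    fun h1 h2 h3 h4 h5 => ⟨_, pr_lt (pr_lt (pr_lt (pr_lt h1 h2) h3) h4) h5, by
      simp only [dc, pr_div h2, pr_div h3, pr_div h4, pr_div h5, pr_mod h2, pr_mod h3, pr_mod h4,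
        pr_mod h5]⟩
  constructor
  · rintro ⟨hx, p, hp, w, h1, h0, h2⟩
    have ok := hx.2
    have hp1 := hlt p
    have key : ∀ j ≤ nOf s * nOf s, ReflTransGen (fun u v =>
        (∃ j < K s * K s * K s * K s * K s, dc s j = v) ∧ E s u v = true) (0, 0, 0, 0, 0)
        (e p + 1, j, e p, j / nOf s % nOf s, j % nOf s) := by
      intro j
      induction j with
      | zero =>
        exact fun _ => .single ⟨sur (by simp only [K]; omega) (K0 s) (by simp only [K]; omega)
          (by simpa using K0 s) (by simpa using K0 s), by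
            simp only [E, decide_eq_true_eq]
            exact .inl ⟨trivial, (hUL _).2 ⟨p, hp, rfl⟩, by simp⟩⟩
      | succ j ih =>
        intro hj
        have q1 := Nat.mod_lt (j / nOf s) h0
        have q2 := Nat.mod_lt j h0
        have walk : ∀ u : List (Fin k), ReflTransGen (fun u v =>
            (∃ j < K s * K s * K s * K s * K s, dc s j = v) ∧ E s u v = true) (0, 0, 0, 0, 0)
            (e p + 1, j, runN (dec k c) (e p) u, runN (dec k s) (j / nOf s % nOf s) u,
              runN (dec k s) (j % nOf s) u) := by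
          intro u
          induction u using List.reverseRecOn with
          | nil => exact ih (by omega)
          | append_singleton u a ihu =>
            have r1 := hok.run_lt (u ++ [a]) hp1
            have r2 := ok.run_lt (u ++ [a]) q1
            have r3 := ok.run_lt (u ++ [a]) q2
            refine ihu.tail ⟨sur ?_ ?_ ?_ ?_ ?_, ?_⟩
            iterate 5 (simp only [K]; omega)
            simp only [E, decide_eq_true_eq]
            exact .inr ⟨by omega, .inl ⟨a, a.2, by simp only [runN_append]; rfl⟩⟩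
        have r2 := Nat.mod_lt ((j + 1) / nOf s) h0
        have r3 := Nat.mod_lt (j + 1) h0
        refine (walk w).tail ⟨sur ?_ ?_ ?_ ?_ ?_, ?_⟩
        iterate 5 (simp only [K]; omega)
        simp only [E, decide_eq_true_eq, hrun, h1]
        exact .inr ⟨by omega, .inr ⟨trivial, h2 _ q1 _ q2, trivial⟩⟩
    exact ⟨_, key _ le_rfl, hx, h0, by simp, rfl⟩
  · rintro ⟨t, h1, hx, h0, h2, h3⟩
    have ok := hx.2
    have key : t.1 = 0 ∨ ∃ p, Useful β b0 FB p ∧ (∀ j < t.2.1, ∃ w : List (Fin k),
        w.foldl β p = p ∧ runN (dec k s) (j / nOf s % nOf s) w = runN (dec k s) (j % nOf s) w) ∧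
        ∃ u : List (Fin k), t = (e p + 1, t.2.1, runN (dec k c) (e p) u,
          runN (dec k s) (t.2.1 / nOf s % nOf s) u, runN (dec k s) (t.2.1 % nOf s) u) := by
      clear h2 h3
      induction h1 with
      | refl => exact .inl rfl
      | @tail t v _ h2 ih =>
        have h3 := h2.2
        simp only [E, decide_eq_true_eq] at h3
        right
        rcases h3 with ⟨-, h3, h4⟩ | ⟨h3, h4⟩
        · obtain ⟨p, hp, h5⟩ := (hUL _).1 h3
          rw [← h5] at h4
          subst h4
          exact ⟨p, hp, by simp, [], by simp⟩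
        obtain ⟨p, hp, h5, u, h6⟩ := ih.resolve_left h3
        generalize t.2.1 = j at h5 h6
        subst h6
        rcases h4 with ⟨a, ha, rfl⟩ | ⟨h7, h8, rfl⟩
        · exact ⟨p, hp, h5, u ++ [⟨a, ha⟩], by simp only [runN_append]; rfl⟩
        · simp only [hrun, Nat.add_right_cancel_iff] at h7 h8 ⊢
          refine ⟨p, hp, fun i hi => ?_, [], by simp [← h7]⟩
          rcases Nat.lt_succ_iff_lt_or_eq.1 hi with hi | rfl
          · exact h5 i hi
          · exact ⟨u, (he h7).symm, h8⟩
    obtain ⟨p, hp, h4, -⟩ := key.resolve_left h2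
    refine ⟨hx, p, hp, exists_sync_of_merge ok h0 (fun w => w.foldl β p = p) rfl
      (fun u w h1 h2 => by rw [List.foldl_append, h1, h2]) fun q hq q' hq' => ?_⟩
    have := h4 _ (h3 ▸ pr_lt hq hq')
    rwa [pr_div hq', pr_mod hq', Nat.mod_eq_of_lt hq] at this

end Pool.Agent.Work.MP_dbfdd9_lc.Hedge
end

-- merged part: Pool.Agent.Work.MP_dbfdd9_lc.Hedge.Main
section
/-!
The fine classification of constrained synchronization.
-/

namespace Pool.Agent.Work.MP_dbfdd9_lc.Hedge

open Pool.Agent.Lib.Cx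

variable {k : ℕ} {B : Type} [Finite B] {β : B → Fin k → B} {b0 : B} {FB : Set B}
  {L : Language (Fin k)}

/-- `w` is a factor of a pumped template of size at most `c`. -/
def Tmpl (L : Language (Fin k)) (c : ℕ) (w : List (Fin k)) : Prop :=
  ∃ u mid v : List (Fin k), u.length ≤ c ∧ mid.length ≤ c ∧ v.length ≤ c ∧
    (∀ N, ∃ x y : List (Fin k), x ++ (pw u N ++ mid ++ pw v N) ++ y ∈ L) ∧
    ∃ K, w <:+: pw u K ++ mid ++ pw v K

theorem core (hL : ∀ w, w ∈ L ↔ w.foldl β b0 ∈ FB) :
    (∃ c, ∀ w ∈ L, (∃ p, Useful β b0 FB p ∧ Rd β p w) ∨ Tmpl L c w) ∨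
      ∀ A ∈ N68a2faeb.NP, LogReducible A (ConstrSync L) := by
  have hU : ∀ p q, Useful β b0 FB p → Sim β p q → Useful β b0 FB q := fun _ _ => Useful.of_sim
  let gs : Set B → Fin k → Set B := fun S a => img β (Useful β b0 FB) S [a]
  have hgs : ∀ (w : List (Fin k)) a S, (a :: w).foldl gs S = img β (Useful β b0 FB) S (a :: w) := by
    intro w
    induction w with
    | nil => exact fun _ _ => rfl
    | cons b w ih => intro a S; rw [List.foldl_cons, ih, ← img_append hU]; rfl
  let δ : B × Set B → Fin k → B × Set B := fun q a => (β q.1 a, gs q.2 a)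
  have hδ : ∀ (w : List (Fin k)) q, w.foldl δ q = (w.foldl β q.1, w.foldl gs q.2) := by
    intro w
    induction w with
    | nil => exact fun _ => rfl
    | cons a w ih => exact fun q => ih _
  let p0 : B × Set B := (b0, Set.univ)
  let F : Set (B × Set B) := {q | q.1 ∈ FB ∧ q.2 = ∅}
  have hsplit : ∀ w ∈ L, (∃ p, Useful β b0 FB p ∧ Rd β p w) ∨ w.foldl δ p0 ∈ F := fun w hw => by
    rcases w with _ | ⟨a, w⟩
    · exact .inl ⟨b0, ⟨.refl _, [], (hL _).1 hw⟩, .nil _⟩
    · rw [hδ, hgs]
      rcases (img β (Useful β b0 FB) Set.univ (a :: w)).eq_empty_or_nonempty with h | ⟨_, p, -, h⟩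
      · exact .inr ⟨(hL _).1 hw, h⟩
      · exact .inl ⟨p, h.1, h.2.1⟩
  have hF : ∀ w : List (Fin k), w.foldl δ p0 ∈ F ↔
      w ∈ L ∧ ∀ γ γ', w.foldl gs γ = w.foldl gs γ' := fun w => by
    rw [hδ, hL]
    refine and_congr_right fun _ => ⟨fun h => ?_, fun h => ?_⟩
    · have : ∀ γ, w.foldl gs γ = ∅ := fun γ => by
        rcases w with _ | ⟨a, w⟩
        · exact Set.subset_eq_empty (Set.subset_univ γ) h
        · exact Set.subset_eq_empty (by rw [hgs, hgs]; exact img_mono (Set.subset_univ _) _) h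
      exact fun γ γ' => by rw [this, this]
    · change w.foldl gs Set.univ = ∅
      rw [h _ ∅]
      rcases w with _ | ⟨a, w⟩
      · rfl
      · rw [hgs]; simp [img]
  have hK : ∀ p, Useful δ p0 F p → ∀ w : List (Fin k), w.foldl δ p0 ∈ F → ¬CC δ p w := by
    rintro p hp w hw ⟨q, h1, t, h2⟩
    obtain ⟨⟨x, hx⟩, y, hy⟩ := hp.of_sim h1
    have h3 : Useful β b0 FB q.1 := ⟨⟨x, by rw [← hx, hδ]⟩, y, by rw [hδ] at hy; exact hy.1⟩
    have h4 : Rd β q.1 w := ⟨t, by rw [hδ, hδ] at h2; exact congrArg Prod.fst h2⟩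
    rw [hδ] at hw
    have h5 : w.foldl β q.1 ∈ w.foldl gs Set.univ := by
      rcases w with _ | ⟨a, w⟩
      · trivial
      · rw [hgs]; exact ⟨q.1, trivial, h3, h4, rfl⟩
    rw [show w.foldl gs Set.univ = ∅ from hw.2] at h5
    exact h5
  have hard : ∀ {g : ℕ}, HasTracker g δ p0 F → ∀ (A : List Bool → Bool) (F0 : Fam g),
      (∀ x, A x = true ↔ ∃ w, ∀ i < F0.n x, F0.Acc x i w) → LogReducible A (ConstrSync L) := by
    rintro g ⟨T, _, step, out, K, τ0, h1, h2⟩ A F0 hA
    refine logRed_of_tracker ∅ step out gs K τ0 (fun w a b => h1 w ((hF w).2 ⟨a, b⟩))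
      (fun v => ?_) F0 hA
    obtain ⟨w, a, b⟩ := h2 v
    exact ⟨w, ((hF w).1 a).1, ((hF w).1 a).2, b⟩
  by_cases hb : NonBr δ p0 F
  swap
  · refine .inr fun A hA => ?_
    obtain ⟨F0, h⟩ := exists_fam_of_NP hA
    exact hard (hasTracker_of_not_nonBr hK hb 1) A F0 h
  by_cases hC : ∀ p, Useful δ p0 F p → ∀ u : List (Fin k), u ≠ [] → u.foldl δ p = p →
      (∀ x s : List (Fin k), x.foldl δ p0 = p → s.foldl δ p = p → CC δ p (x ++ s)) ∨
      (∀ s y : List (Fin k), s.foldl δ p = p → y.foldl δ p ∈ F → CC δ p (s ++ y))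
  · obtain ⟨c, hc⟩ := exists_templates hb hC
    refine .inl ⟨c, fun w hw => (hsplit w hw).imp_right fun h => ?_⟩
    obtain ⟨u, mid, v, h1, h2, h3, h4, h5⟩ := hc w h
    exact ⟨u, mid, v, h1, h2, h3, fun N => let ⟨x, y, h⟩ := h4 N; ⟨x, y, ((hF _).1 h).1⟩, h5⟩
  · refine .inr fun A hA => ?_
    push Not at hC
    obtain ⟨p, hp, u, hu0, hu, ⟨x, s1, hx, hs1, hl⟩, s2, y, hs2, hy, hr⟩ := hC
    obtain ⟨F0, h⟩ := exists_fam_of_NP hA
    exact hard (hasTracker_of_breaks hb hp hu hu0 hx hs1 hs2 hy hl hr) A F0 h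

theorem exists_test (L : Language (Fin k)) (c : ℕ) : ∃ G : List Bool → Bool, LS G ∧
    (∀ s, G s = true → ConstrSync L s = true) ∧
    ∀ s, Valid k s → ∀ w, Tmpl L c w → SyncN (nOf s) (dec k s) w → G s = true := by
  classical
  have hfin : {t : List (Fin k) × List (Fin k) × List (Fin k) | (t.1.length ≤ c ∧
      t.2.1.length ≤ c ∧ t.2.2.length ≤ c) ∧
      ∀ N, ∃ x y : List (Fin k), x ++ (pw t.1 N ++ t.2.1 ++ pw t.2.2 N) ++ y ∈ L}.Finite :=
    ((List.finite_length_le (Fin k) c).prod ((List.finite_length_le (Fin k) c).prod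
      (List.finite_length_le (Fin k) c))).subset fun _ h => h.1
  let TL := hfin.toFinset.toList
  refine ⟨fun s => decide (Valid k s) && TL.any fun t => decide (SyncN (nOf s)
      (dec k s) (pw t.1 (nOf s) ++ t.2.1 ++ pw t.2.2 (nOf s))), by fun_prop, fun s => ?_,
      fun s hx w => ?_⟩ <;>
    simp only [decide_eq_true_eq, Bool.and_eq_true, List.any_eq_true, TL, cs_iff,
      Finset.mem_toList, Set.Finite.mem_toFinset, Set.mem_ofPred_eq]
  · rintro ⟨hx, t, ⟨-, h1⟩, h2⟩
    obtain ⟨x', y, h3⟩ := h1 (nOf s)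
    exact ⟨hx, _, h3, h2.of_inf hx.2 (List.infix_append _ _ _)⟩
  · rintro ⟨u, mid, v, a1, a2, a3, a4, K, a5⟩ h2
    exact ⟨hx, (u, mid, v), ⟨⟨a1, a2, a3⟩, a4⟩, (h2.of_inf hx.2 a5).stabilize hx.2⟩

theorem cs_mem_NL (hL : ∀ w, w ∈ L ↔ w.foldl β b0 ∈ FB) {c : ℕ}
    (h : ∀ w ∈ L, (∃ p, Useful β b0 FB p ∧ Rd β p w) ∨ Tmpl L c w) : ConstrSync L ∈ NL := by
  classical
  obtain ⟨G, h1, h2, h3⟩ := exists_test L c
  have e : ConstrSync L = fun s => decide (Valid k s ∧ LoopSync β b0 FB s) || G s := by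
    funext s
    rw [Bool.eq_iff_iff, Bool.or_eq_true, decide_eq_true_eq]
    refine ⟨fun hs => ?_, fun hs => hs.elim (fun ⟨hx, hs⟩ => ?_) (h2 s)⟩
    · obtain ⟨hx, w, a1, a2⟩ := (cs_iff L s).1 hs
      exact (h w a1).imp (fun ⟨p, a3, a4⟩ => ⟨hx, LoopSync.of_rd β b0 FB hx.2 a3 a4 a2⟩)
        fun a3 => h3 s hx w a3 a2
    · obtain ⟨w, a1, a2⟩ := hs.exists_mem β b0 FB hx.2
      exact (cs_iff L s).2 ⟨hx, w, (hL w).2 a1, a2⟩
  rw [e]
  exact loop_mem_NL β b0 FB h1

theorem cs_mem_LOGSPACE (hL : ∀ w, w ∈ L ↔ w.foldl β b0 ∈ FB) (hb : NonBr β b0 FB) {c : ℕ}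
    (h : ∀ w ∈ L, (∃ p, Useful β b0 FB p ∧ Rd β p w) ∨ Tmpl L c w) :
    ConstrSync L ∈ LOGSPACE := by
  obtain ⟨lp, c', l1, l2, l3⟩ := exists_loops β
  obtain ⟨G, h1, h2, h3⟩ := exists_test L (c + c')
  have e : ConstrSync L = G := by
    funext s
    rw [Bool.eq_iff_iff]
    refine ⟨fun hs => ?_, h2 s⟩
    obtain ⟨hx, w, a1, a2⟩ := (cs_iff L s).1 hs
    refine h3 s hx w ?_ a2
    rcases h w a1 with ⟨p, hp, hw⟩ | ⟨u, mid, v, b1, b2, b3, b4⟩
    · obtain ⟨⟨x, hx⟩, y, hy⟩ := id hp
      refine ⟨lp p, [], [], (l1 p).trans (by omega), by simp, by simp,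
        fun N => ⟨x, y, (hL _).2 ?_⟩, w.length, ?_⟩
      · have : pw ([] : List (Fin k)) N = [] := by simp [pw]
        simpa [this, hx, foldl_pw (l2 p)] using hy
      · rcases w with _ | ⟨a, w⟩
        · exact List.nil_infix
        · rw [List.append_assoc]
          exact ((hb.prefix_pw hp (l2 p) (l3 p a (rd_cons.1 hw).1) hw).trans
            (List.prefix_append _ _)).isInfix
    · exact ⟨u, mid, v, by omega, by omega, by omega, b4⟩
  rw [e]
  exact (LS.singleton h1).logspaceComputable

theorem branching_iff (hL : ∀ w, w ∈ L ↔ w.foldl β b0 ∈ FB) : Branching L ↔ ¬NonBr β b0 FB := by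
  constructor
  · rintro ⟨x, u, v, y, hne, h⟩ hb
    obtain ⟨ws, hws, hmin⟩ := exists_minimalFor_of_wellFoundedLT
      (fun ws : List (List (Fin k)) => ∀ w ∈ ws, w = u ∨ w = v)
      (fun ws => rho β ((x ++ ws.flatten).foldl β b0)) ⟨[], by simp⟩
    have hq : Useful β b0 FB ((x ++ ws.flatten).foldl β b0) :=
      ⟨reach_foldl _ _, y, by rw [← List.foldl_append]; exact (hL _).1 (h ws hws)⟩
    have rd : ∀ a b, (a = u ∨ a = v) → (b = u ∨ b = v) →
        Rd β ((x ++ ws.flatten).foldl β b0) (a ++ b) := fun a b ha hb => by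
      by_contra hr
      have h1 := rho_lt hr
      have h2 := hmin (j := ws ++ [a, b]) (by
        intro w hw
        simp only [List.mem_append, List.mem_cons, List.not_mem_nil, or_false] at hw
        rcases hw with hw | rfl | rfl
        exacts [hws w hw, ha, hb])
      simp only [List.flatten_append, List.flatten_cons, List.flatten_nil, List.append_nil,
        List.foldl_append] at h1 h2
      exact h1.not_ge (h2 h1.le)
    exact hne ((hb.is_pre hq (rd u v (.inl rfl) (.inr rfl)) (rd v u (.inr rfl) (.inl rfl))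
      (by simp; omega)).eq_of_length (by simp; omega))
  · intro h
    unfold NonBr at h
    push Not at h
    obtain ⟨p, ⟨⟨x, hx⟩, y, hy⟩, a, b, ⟨t, ht⟩, ⟨t', ht'⟩, hab⟩ := h
    refine ⟨x, a :: t, b :: t', y, fun e => hab (List.cons.inj e).1, fun ws hws => (hL _).2 ?_⟩
    have : ws.flatten.foldl β p = p := by
      induction ws with
      | nil => rfl
      | cons w ws ih =>
        have h1 : w.foldl β p = p := by
          rcases hws w List.mem_cons_self with rfl | rfl
          exacts [ht, ht']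
        rw [List.flatten_cons, List.foldl_append, h1, ih fun w hw => hws w (.tail _ hw)]
    rw [List.foldl_append, List.foldl_append, hx, this]
    exact hy

theorem fine (L : Language (Fin k)) (hreg : L.IsRegular) :
    (¬Branching L → ConstrSync L ∈ LOGSPACE ∨ LogComplete N68a2faeb.NP (ConstrSync L)) ∧
    (Branching L → LogComplete NL (ConstrSync L) ∨
      ∀ A ∈ N68a2faeb.NP, LogReducible A (ConstrSync L)) := by
  obtain ⟨B, _, D, hD⟩ := hreg
  have hL : ∀ w, w ∈ L ↔ w.foldl D.step D.start ∈ D.accept := fun w => by rw [← hD]; rfl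
  generalize D.step = β, D.start = b0, D.accept = FB at hL
  rw [branching_iff hL, not_not]
  refine ⟨fun hb => (core hL).imp (fun ⟨c, h⟩ => cs_mem_LOGSPACE hL hb h) fun h => ⟨?_, h⟩,
    fun hb => (core hL).imp_left fun ⟨c, h⟩ =>
      ⟨cs_mem_NL hL h, fun A hA => hard_of_not_nonBr hL hb hA⟩⟩
  obtain ⟨c, hc⟩ := exists_blocks hb
  exact cs_mem_NP β b0 FB hL c fun w hw => .inr (hc w ((hL w).1 hw))

end Pool.Agent.Work.MP_dbfdd9_lc.Hedge
end
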